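import Pool.Agent.Lib.MP_1d35f7_co.Main

set_option autoImplicit false

namespace Pool.Agent.Results.MP_1d35f7_co.SmallSide

open Pool.Agent.Lib.MP_1d35f7_co

/-- If `K_{a,b} → K_{n,n}` then `ab > e⁻² n² 2ⁿ exp(n(n-3) / (2 min(a,b)))`. -/
theorem result :
    ∀ n a b : ℕ, 1 ≤ n → Arrows a b n →
      Real.exp (-2) * (n : ℝ) ^ 2 * 2 ^ n *
        Real.exp ((n : ℝ) * (n - 3) / (2 * (min a b : ℕ))) < a * b :=
  fun _ _ _ hn h => lower_min hn h

end Pool.Agent.Results.MP_1d35f7_co.SmallSide
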